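import Pool.Agent.N316.MS.Tk
import Pool.Agent.H376R2.MR.Dec

/-!
Project MS (helper912), part MS8: the decomposition. Adapted from `Pool.Agent.W638.GA`.
-/

set_option autoImplicit false

namespace Pool.Agent.N316.MS

open Finset Filter
open Pool.Agent.H376R2.MR (ch w dec_w_zero dec_w_nonneg dec_w_le dec_w_lip dec_real)
open Pool.Agent.W78.GA
open Pool.Agent.N912.MS
open Pool.Agent.H970R2.X (cellP mmp P1)

theorem ch_add (k : ℤ) (x y : ℝ) : ch k (x + y) = ch k x * ch k y := by
  unfold ch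
  rw [← Complex.exp_add]
  congr 1
  push_cast
  ring

theorem chi_mul (κ : ℤ × ℤ) {z u : Gi} (hz : z ≠ 0) (hu : u ≠ 0) :
    chi κ (z * u) = chi κ z * chi κ u := by
  unfold chi
  rw [ps_mul hD01, nm_mul]
  have h1 := nm_posR hD01 hz
  have h2 := nm_posR hD01 hu
  push_cast
  rw [Real.log_mul h1.ne' h2.ne', ch_add]
  ring

theorem cellP_facts {H v p : ℕ} (hp : p ∈ cellP (P1 4) H v) :
    (p.Prime ∧ p % 4 = 1) ∧ (v : ℝ) / H ≤ Real.log p ∧ Real.log p < ((v : ℝ) + 1) / H := by
  classical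
  unfold cellP at hp
  rw [mem_filter] at hp
  obtain ⟨h1, h2⟩ := hp
  unfold Pool.Agent.H376R2.MR.cell at h1
  rw [mem_filter] at h1
  unfold P1 at h2
  exact ⟨⟨h1.2.1, by simpa using h2⟩, h1.2.2⟩

theorem cellP_disj {H : ℕ} (hH : 1 ≤ H) {v v' m : ℕ} (h : m ∈ cellP (P1 4) H v)
    (h' : m ∈ cellP (P1 4) H v') : v = v' := by
  obtain ⟨-, h1, h2⟩ := cellP_facts h
  obtain ⟨-, h3, h4⟩ := cellP_facts h'
  have hH0 : (0 : ℝ) < H := by exact_mod_cast hH
  have h5 : (v : ℝ) < v' + 1 := by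
    have := lt_of_le_of_lt h1 h4
    exact (div_lt_div_iff_of_pos_right hH0).1 this
  have h6 : (v' : ℝ) < v + 1 := by
    have := lt_of_le_of_lt h3 h2
    exact (div_lt_div_iff_of_pos_right hH0).1 this
  have h7 : v < v' + 1 := by exact_mod_cast h5
  have h8 : v' < v + 1 := by exact_mod_cast h6
  omega

open scoped Classical in
/-- the smoothed number of divisors `gq p` -/
noncomputable def dT (H v₀ v₁ : ℕ) (Y : ℝ) (z : Gi) : ℝ :=
  ∑ v ∈ Ico v₀ v₁, ∑ p ∈ cellP (P1 4) H v, if gq p ∣ z then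
    w (Real.log (nm z) - Real.log Y - (Real.log p - (v : ℝ) / H)) else 0

theorem mem_win_of_log {Y : ℝ} (hY : 0 < Y) {z : Gi} (hz : z ≠ 0)
    (h1 : Real.log Y - 2 ≤ Real.log (nm z)) (h2 : Real.log (nm z) ≤ Real.log Y + 2) :
    z ∈ win 0 1 Y := by
  have hN := nm_posR hD01 hz
  rw [mem_win hD01]
  refine ⟨nm_pos hD01 hz, ?_, ?_⟩
  · rw [← Real.log_le_log_iff (by positivity) hN,
      Real.log_div hY.ne' (Real.exp_pos 2).ne', Real.log_exp]
    exact h1
  · rw [← Real.log_le_log_iff hN (by positivity),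
      Real.log_mul (Real.exp_pos 2).ne' hY.ne', Real.log_exp]
    linarith

theorem w_ne {x : ℝ} (h : w x ≠ 0) : |x| < 1 := by
  by_contra hcon
  exact h (dec_w_zero (not_lt.1 hcon))

theorem G2_eq (f : Gi → ℝ) {Y : ℝ} (hY : 0 < Y) (κ : ℤ × ℤ) :
    G2 f Y κ = ∑ z ∈ win 0 1 Y,
      (((f z * w (Real.log (nm z) - Real.log Y)) / nm z : ℝ) : ℂ) * chi κ z := by
  unfold G2 DP2
  refine Finset.sum_congr_of_eq_on_inter ?_ ?_ ?_
  · intro z hz hz'
    rw [mem_ball hD01] at hz
    have hz0 : z ≠ 0 := (one_le_nm hD01).1 hz.1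
    have hN := nm_posR hD01 hz0
    have hw : w (Real.log (nm z) - Real.log Y) = 0 := by
      by_contra hcon
      have h1 := abs_lt.1 (w_ne hcon)
      exact hz' (mem_win_of_log hY hz0 (by linarith) (by linarith))
    unfold bg
    simp only [hw]
    simp
  · intro z hz hz'
    rw [mem_win hD01] at hz
    have hz0 : z ≠ 0 := (one_le_nm hD01).1 hz.1
    have hN := nm_posR hD01 hz0
    have hw : w (Real.log (nm z) - Real.log Y) = 0 := by
      by_contra hcon
      have h1 := abs_lt.1 (w_ne hcon)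
      apply hz'
      rw [mem_ball hD01]
      refine ⟨hz.1, ?_⟩
      rw [← Real.log_le_log_iff hN (by positivity),
        Real.log_mul (Real.exp_pos 1).ne' hY.ne', Real.log_exp]
      linarith
    rw [hw]
    simp
  · intro z _ _
    unfold bg
    push_cast
    ring

open scoped Classical in
/-- the product of one prime with `G` -/
theorem one_term {f : Gi → ℝ} (hf : CMR f) {a : Gi} (ha : a ≠ 0) {Y V : ℝ} (hY : 0 < Y)
    (h1 : V ≤ Real.log (nm a)) (h2 : Real.log (nm a) ≤ V + 1) (κ : ℤ × ℤ) :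
    (f a : ℂ) * chi κ a / ((nm a : ℕ) : ℂ) * G2 f (Y * Real.exp (-V)) κ =
      ∑ z ∈ win 0 1 Y, (((f z * (if a ∣ z then
        w (Real.log (nm z) - Real.log Y - (Real.log (nm a) - V)) else 0)) / nm z : ℝ) : ℂ) *
          chi κ z := by
  set Z : ℝ := Y * Real.exp (-V) with hZ
  have hZ0 : 0 < Z := by positivity
  have hlogZ : Real.log Z = Real.log Y - V := by
    rw [hZ, Real.log_mul hY.ne' (Real.exp_pos _).ne', Real.log_exp]; ring
  have hmR : (0 : ℝ) < nm a := nm_posR hD01 ha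
  have hmC : ((nm a : ℕ) : ℂ) ≠ 0 := by exact_mod_cast hmR.ne'
  set F : Gi → ℂ := fun z => (((f z * w (Real.log (nm z) - Real.log Y -
    (Real.log (nm a) - V))) / nm z : ℝ) : ℂ) * chi κ z with hF
  have hcancel : ∀ x y : Gi, a * x = a * y → x = y := by
    intro x y h
    have h1 : star a * (a * x) = star a * (a * y) := by rw [h]
    rw [← mul_assoc, ← mul_assoc, star_mul_self' hD01] at h1
    have h2 := congrArg QuadraticAlgebra.re h1
    have h3 := congrArg QuadraticAlgebra.im h1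
    simp only [QuadraticAlgebra.re_mul, QuadraticAlgebra.im_mul, QuadraticAlgebra.re_natCast,
      QuadraticAlgebra.im_natCast] at h2 h3
    have h4 : (nm a : ℤ) ≠ 0 := by exact_mod_cast (nm_pos hD01 ha).ne'
    apply QuadraticAlgebra.ext
    · apply mul_left_cancel₀ h4
      simpa using h2
    · apply mul_left_cancel₀ h4
      simpa using h3
  have hlm : ∀ u : Gi, u ≠ 0 → Real.log (nm (a * u)) = Real.log (nm a) + Real.log (nm u) := by
    intro u hu
    rw [nm_mul]
    push_cast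
    exact Real.log_mul hmR.ne' (nm_posR hD01 hu).ne'
  have hau : ∀ u : Gi, u ≠ 0 → a * u ≠ 0 := by
    intro u hu
    rw [← one_le_nm hD01, nm_mul]
    exact Nat.mul_pos (nm_pos hD01 ha) (nm_pos hD01 hu)
  have e1 : (f a : ℂ) * chi κ a / ((nm a : ℕ) : ℂ) * G2 f Z κ =
      ∑ u ∈ ball 0 1 (Real.exp 1 * Z), F (a * u) := by
    unfold G2 DP2
    rw [Finset.mul_sum]
    refine Finset.sum_congr rfl fun u hu => ?_
    rw [mem_ball hD01] at hu
    have hu0 : u ≠ 0 := (one_le_nm hD01).1 hu.1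
    have hNu := nm_posR hD01 hu0
    have hNuc : ((nm u : ℕ) : ℂ) ≠ 0 := by exact_mod_cast hNu.ne'
    simp only [hF]
    rw [hlm u hu0, chi_mul κ ha hu0, hf.mul a u ha hu0, nm_mul]
    unfold bg
    have e3 : Real.log (nm a) + Real.log (nm u) - Real.log Y - (Real.log (nm a) - V) =
      Real.log (nm u) - Real.log Z := by rw [hlogZ]; ring
    rw [e3]
    push_cast
    field_simp
  have e2 : ∑ z ∈ win 0 1 Y, (((f z * (if a ∣ z then
        w (Real.log (nm z) - Real.log Y - (Real.log (nm a) - V)) else 0)) / nm z : ℝ) : ℂ) *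
          chi κ z = ∑ z ∈ (win 0 1 Y).filter (fun z => a ∣ z), F z := by
    rw [Finset.sum_filter]
    refine Finset.sum_congr rfl fun z _ => ?_
    split_ifs
    · rfl
    · simp
  rw [e1, e2]
  refine Finset.sum_bij_ne_zero (fun u _ _ => a * u) ?_ ?_ ?_ ?_
  · intro u hu hne
    rw [mem_ball hD01] at hu
    have hu0 : u ≠ 0 := (one_le_nm hD01).1 hu.1
    have hw : w (Real.log (nm (a * u)) - Real.log Y - (Real.log (nm a) - V)) ≠ 0 := by
      intro h
      apply hne
      simp only [hF]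
      rw [h]
      simp
    have h3 := abs_lt.1 (w_ne hw)
    rw [mem_filter]
    exact ⟨mem_win_of_log hY (hau u hu0) (by linarith) (by linarith), dvd_mul_right _ _⟩
  · intro u _ _ u' _ _ h
    exact hcancel _ _ h
  · intro z hz hne
    rw [mem_filter, mem_win hD01] at hz
    obtain ⟨hz1, u, rfl⟩ := hz
    have hu0 : u ≠ 0 := by
      rintro rfl
      rw [mul_zero, nm_zero] at hz1
      omega
    have hw : w (Real.log (nm (a * u)) - Real.log Y - (Real.log (nm a) - V)) ≠ 0 := by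
      intro h
      apply hne
      simp only [hF]
      rw [h]
      simp
    have h3 := abs_lt.1 (w_ne hw)
    rw [hlm u hu0] at h3
    refine ⟨u, ?_, hne, rfl⟩
    rw [mem_ball hD01]
    refine ⟨nm_pos hD01 hu0, ?_⟩
    rw [← Real.log_le_log_iff (nm_posR hD01 hu0) (by positivity),
      Real.log_mul (Real.exp_pos 1).ne' hZ0.ne', Real.log_exp, hlogZ]
    linarith
  · intro u _ _
    rfl

theorem sum_eq {f : Gi → ℝ} (hf : CMR f) {H v₀ v₁ : ℕ} (hH : 1 ≤ H) {Y : ℝ} (hY : 0 < Y)
    (κ : ℤ × ℤ) :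
    ∑ v ∈ Ico v₀ v₁, P2 f H v κ * G2 f (Y * Real.exp (-((v : ℝ) / H))) κ =
      -∑ z ∈ win 0 1 Y, (((f z * dT H v₀ v₁ Y z) / nm z : ℝ) : ℂ) * chi κ z := by
  classical
  have hH0 : (0 : ℝ) < H := by exact_mod_cast hH
  have h1 : ∀ v ∈ Ico v₀ v₁, P2 f H v κ * G2 f (Y * Real.exp (-((v : ℝ) / H))) κ =
      -∑ z ∈ win 0 1 Y, ∑ p ∈ cellP (P1 4) H v, (((f z * (if gq p ∣ z then
        w (Real.log (nm z) - Real.log Y - (Real.log p - (v : ℝ) / H)) else 0)) /
          nm z : ℝ) : ℂ) * chi κ z := by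
    intro v _
    unfold P2
    rw [neg_mul, Finset.sum_mul, Finset.sum_comm]
    congr 1
    refine Finset.sum_congr rfl fun p hp => ?_
    obtain ⟨⟨hpp, hp4⟩, hp1, hp2⟩ := cellP_facts hp
    have hn : nm (gq p) = p := nm_gq hpp hp4
    have hg0 : gq p ≠ 0 := by
      rw [← one_le_nm hD01, hn]
      exact hpp.pos
    have h3 : ((v : ℝ) + 1) / H = (v : ℝ) / H + 1 / H := by ring
    have h4 : (1 : ℝ) / H ≤ 1 := by
      rw [div_le_one hH0]; exact_mod_cast hH
    have h2 := one_term hf hg0 hY (V := (v : ℝ) / H) (by rw [hn]; exact hp1)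
      (by rw [hn]; linarith) κ
    rw [hn] at h2
    exact h2
  rw [Finset.sum_congr rfl h1, Finset.sum_neg_distrib, Finset.sum_comm]
  congr 1
  refine Finset.sum_congr rfl fun z _ => ?_
  unfold dT
  simp only [Finset.mul_sum, Finset.sum_div]
  push_cast
  simp only [Finset.sum_mul]

theorem dec2 : S_DEC2 := by
  classical
  intro f hf
  obtain ⟨C, hC, htk⟩ := tk_primes
  refine ⟨Real.exp 2 * (6 * C + 4 * C), by positivity, ?_⟩
  intro H v₀ v₁ hH hHv hW Y hexp
  set W : ℝ := ∑ v ∈ Ico v₀ v₁, m2 H v with hWdef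
  have hY : 1 ≤ Y := by
    refine le_trans ?_ hexp
    rw [← Real.exp_zero]
    apply Real.exp_le_exp.mpr; positivity
  have hY0 : 0 < Y := by linarith
  have hH0 : (0:ℝ) < H := by exact_mod_cast hH
  have hH1 : (1:ℝ) ≤ H := by exact_mod_cast hH
  have hW0 : 0 < W := by linarith
  have hWc : (W : ℂ) ≠ 0 := by exact_mod_cast hW0.ne'
  set S : Finset ℕ := (Ico v₀ v₁).biUnion (cellP (P1 4) H) with hS
  have hdisj : Set.PairwiseDisjoint (↑(Ico v₀ v₁) : Set ℕ) (cellP (P1 4) H) := by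
    intro v _ v' _ hne
    rw [Function.onFun, Finset.disjoint_left]
    intro p hp hp'
    exact hne (cellP_disj hH hp hp')
  have hWS : ∑ m ∈ S, 1 / (m : ℝ) = W := by
    rw [hS, Finset.sum_biUnion hdisj, hWdef]; rfl
  have hSm : ∀ m ∈ S, (m.Prime ∧ m % 4 = 1) ∧ (m : ℝ) ≤ Real.exp ((v₁ : ℝ) / H) := by
    intro m hm
    rw [hS, mem_biUnion] at hm
    obtain ⟨v, hv, hm⟩ := hm
    obtain ⟨h1, h3, h4⟩ := cellP_facts hm
    refine ⟨h1, ?_⟩
    have hm0 : (0:ℝ) < m := by exact_mod_cast h1.1.pos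
    rw [← Real.log_le_iff_le_exp hm0]
    refine h4.le.trans ?_
    apply div_le_div_of_nonneg_right _ hH0.le
    have := (mem_Ico.mp hv).2
    exact_mod_cast this
  obtain ⟨hTK, hinv⟩ := htk S (Real.exp ((v₁ : ℝ) / H)) Y hSm
    (by rw [hWS]; exact hW) (by
    rw [← Real.exp_nat_mul]
    refine le_trans (le_of_eq ?_) hexp
    congr 1; push_cast; ring)
  rw [hWS] at hTK
  set D := win 0 1 Y with hDdef
  refine ⟨D, fun z => (((f z * (w (Real.log (nm z) - Real.log Y) -
      dT H v₀ v₁ Y z / W)) / nm z : ℝ) : ℂ), subset_rfl, ?_, ?_⟩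
  · intro κ
    rw [sum_eq hf hH hY0 κ, G2_eq f hY0 κ]
    unfold DP2
    rw [neg_mul_neg, Finset.mul_sum, ← Finset.sum_add_distrib]
    refine Finset.sum_congr rfl fun z hz => ?_
    have hz' := (mem_win hD01).1 hz
    have hz0 : z ≠ 0 := (one_le_nm hD01).1 hz'.1
    have hzc : ((nm z : ℕ) : ℂ) ≠ 0 := by exact_mod_cast (nm_posR hD01 hz0).ne'
    push_cast
    field_simp
    ring
  · rw [Finset.mul_sum]
    -- pointwise bound
    have hpt : ∀ z ∈ D, Y * ‖(((f z * (w (Real.log (nm z) - Real.log Y) -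
        dT H v₀ v₁ Y z / W)) / nm z : ℝ) : ℂ)‖ ^ 2 ≤
        Real.exp 2 * ((2 / W ^ 2 + 4 / (H ^ 2 * W ^ 2)) *
          ((((S.filter (fun m => gq m ∣ z)).card : ℝ) - W) ^ 2 / nm z) +
          4 / H ^ 2 * (1 / nm z)) := by
      intro z hz
      have hz' := (mem_win hD01).1 hz
      have hzne : z ≠ 0 := (one_le_nm hD01).1 hz'.1
      have hN := nm_posR hD01 hzne
      rw [Complex.norm_real, Real.norm_eq_abs, sq_abs, div_pow]
      set N : ℝ := (nm z : ℝ) with hNd
      set x : ℝ := w (Real.log N - Real.log Y) with hx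
      set T : ℝ := dT H v₀ v₁ Y z with hTd
      have hg : f z ^ 2 ≤ 1 := by
        have h1 := hf.bd z
        rw [← sq_abs]
        exact pow_le_one₀ (abs_nonneg _) h1
      have hsplit : (f z * (x - T / W)) ^ 2 ≤ (x - T / W) ^ 2 := by
        rw [mul_pow]
        calc f z ^ 2 * (x - T / W) ^ 2 ≤ 1 * (x - T / W) ^ 2 :=
              mul_le_mul_of_nonneg_right hg (by positivity)
          _ = _ := one_mul _
      set om : ℝ := ((S.filter (fun m => gq m ∣ z)).card : ℝ) with hom'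
      have hom : om = ∑ v ∈ Ico v₀ v₁, ∑ m ∈ cellP (P1 4) H v,
          if gq m ∣ z then (1 : ℝ) else 0 := by
        rw [hom', Finset.card_filter]
        push_cast
        rw [hS, Finset.sum_biUnion hdisj]
      have hT : |om * x - T| ≤ om / H := by
        have e1 : om * x - T = ∑ v ∈ Ico v₀ v₁, ∑ m ∈ cellP (P1 4) H v,
            (if gq m ∣ z then (x - w (Real.log N - Real.log Y -
              (Real.log m - (v : ℝ) / H))) else 0) := by
          rw [hom, Finset.sum_mul, hTd]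
          unfold dT
          rw [← Finset.sum_sub_distrib]
          refine Finset.sum_congr rfl fun v _ => ?_
          rw [Finset.sum_mul, ← Finset.sum_sub_distrib]
          refine Finset.sum_congr rfl fun p _ => ?_
          split_ifs <;> simp [hNd]
        have e2 : om / H = ∑ v ∈ Ico v₀ v₁, ∑ m ∈ cellP (P1 4) H v,
            (if gq m ∣ z then 1 / (H : ℝ) else 0) := by
          rw [hom, Finset.sum_div]
          refine Finset.sum_congr rfl fun v _ => ?_
          rw [Finset.sum_div]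
          refine Finset.sum_congr rfl fun p _ => ?_
          split_ifs <;> simp
        rw [e1, e2]
        refine (Finset.abs_sum_le_sum_abs _ _).trans (Finset.sum_le_sum fun v _ => ?_)
        refine (Finset.abs_sum_le_sum_abs _ _).trans (Finset.sum_le_sum fun p hp => ?_)
        obtain ⟨_, h2, h3⟩ := cellP_facts hp
        split_ifs with hd
        · refine (dec_w_lip _ _).trans ?_
          have e3 : Real.log N - Real.log Y -
            (Real.log N - Real.log Y - (Real.log p - (v : ℝ) / H)) =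
            Real.log p - (v : ℝ) / H := by ring
          rw [e3, abs_of_nonneg (by linarith)]
          have e4 : ((v : ℝ) + 1) / H = (v : ℝ) / H + 1 / H := by ring
          linarith
        · simp
      have hr := dec_real hW hH1 (dec_w_nonneg (Real.log N - Real.log Y))
        (dec_w_le (Real.log N - Real.log Y)) (by positivity : 0 ≤ om) hT
      have hYN : Y / N ≤ Real.exp 2 := by
        rw [div_le_iff₀ hN]
        have := hz'.2.1
        rw [div_le_iff₀ (Real.exp_pos 2)] at this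
        linarith
      calc Y * ((f z * (x - T / W)) ^ 2 / N ^ 2) = Y / N ^ 2 * (f z * (x - T / W)) ^ 2 := by ring
        _ ≤ Y / N ^ 2 * (x - T / W) ^ 2 := mul_le_mul_of_nonneg_left hsplit (by positivity)
        _ = (Y / N) * ((1 / N) * (x - T / W) ^ 2) := by
            field_simp
        _ ≤ Real.exp 2 * ((1 / N) * (x - T / W) ^ 2) :=
            mul_le_mul_of_nonneg_right hYN (by positivity)
        _ ≤ Real.exp 2 * ((1 / N) * (2 * ((om - W) ^ 2 / W ^ 2 +
              (2 * (om - W) ^ 2 + 2 * W ^ 2) / ((H : ℝ) ^ 2 * W ^ 2)))) := by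
            apply mul_le_mul_of_nonneg_left _ (Real.exp_pos 2).le
            exact mul_le_mul_of_nonneg_left hr (by positivity)
        _ = _ := by field_simp; ring
    refine (Finset.sum_le_sum hpt).trans ?_
    rw [← Finset.mul_sum, Finset.sum_add_distrib, ← Finset.mul_sum, ← Finset.mul_sum, mul_assoc]
    apply mul_le_mul_of_nonneg_left _ (Real.exp_pos 2).le
    have hTK' : ∑ z ∈ D, (((S.filter (fun m => gq m ∣ z)).card : ℝ) - W) ^ 2 /
        (nm z : ℝ) ≤ C * W := hTK
    have hc : 0 ≤ 2 / W ^ 2 + 4 / ((H : ℝ) ^ 2 * W ^ 2) := by positivity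
    calc (2 / W ^ 2 + 4 / ((H : ℝ) ^ 2 * W ^ 2)) *
          ∑ z ∈ D, (((S.filter (fun m => gq m ∣ z)).card : ℝ) - W) ^ 2 / (nm z : ℝ) +
          4 / (H : ℝ) ^ 2 * ∑ z ∈ D, (1 : ℝ) / (nm z : ℝ)
        ≤ (2 / W ^ 2 + 4 / ((H : ℝ) ^ 2 * W ^ 2)) * (C * W) + 4 / (H : ℝ) ^ 2 * C := by
          apply add_le_add
          · exact mul_le_mul_of_nonneg_left hTK' hc
          · exact mul_le_mul_of_nonneg_left hinv (by positivity)
      _ ≤ (6 / W ^ 2) * (C * W) + 4 / (H : ℝ) ^ 2 * C := by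
          have h6 : 4 / ((H : ℝ) ^ 2 * W ^ 2) ≤ 4 / W ^ 2 := by
            apply div_le_div_of_nonneg_left (by norm_num) (by positivity)
            have : (1:ℝ) ≤ (H : ℝ) ^ 2 := by nlinarith
            nlinarith [sq_nonneg W]
          have h7 : 2 / W ^ 2 + 4 / ((H : ℝ) ^ 2 * W ^ 2) ≤ 6 / W ^ 2 := by
            have : (6:ℝ) / W ^ 2 = 2 / W ^ 2 + 4 / W ^ 2 := by ring
            linarith
          have := mul_le_mul_of_nonneg_right h7 (by positivity : 0 ≤ C * W)
          linarith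
      _ = 6 * C * (1 / W) + 4 * C * (1 / (H : ℝ) ^ 2) := by
          field_simp
      _ ≤ 6 * C * (1 / W) + 4 * C * (1 / (H : ℝ) ^ 2) +
            (6 * C * (1 / (H : ℝ) ^ 2) + 4 * C * (1 / W)) := by
          have h1 : 0 ≤ 6 * C * (1 / (H : ℝ) ^ 2) := by positivity
          have h2 : 0 ≤ 4 * C * (1 / W) := by positivity
          exact le_add_of_nonneg_right (add_nonneg h1 h2)
      _ = (6 * C + 4 * C) * (1 / W + 1 / (H : ℝ) ^ 2) := by ring

end Pool.Agent.N316.MS
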