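import Pool.Agent.N912.MS.Stm
import Pool.Agent.W999.GA.TK
import Pool.Agent.W45.GA.Lat

/-!
Project MS (helper912), part MS8, first file: Turan-Kubilius for the Gaussian primes `gq p`.
Adapted from `Pool.Agent.W999.GA.TK`.
-/

set_option autoImplicit false

namespace Pool.Agent.N316.MS

open Finset Filter
open Pool.Agent.W78.GA
open Pool.Agent.N912.MS
open Pool.Agent.W999.GA (kap_pos tk_mult mul_dvd_of_coprime)

theorem hD01 : (0 : ℤ) ^ 2 < 4 * 1 := by norm_num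

theorem nm_gq {p : ℕ} (hp : p.Prime) (h4 : p % 4 = 1) : nm (gq p) = p := by
  have : Fact p.Prime := ⟨hp⟩
  obtain ⟨a, b, hab⟩ := Nat.Prime.sq_add_sq (p := p) (by omega)
  have hex : ∃ z : Gi, nm z = p := by
    refine ⟨⟨a, b⟩, ?_⟩
    unfold nm
    simp only [zero_mul, add_zero, one_mul]
    rw [← hab]
    have e : ((a : ℤ) ^ 2 + (b : ℤ) ^ 2) = ((a ^ 2 + b ^ 2 : ℕ) : ℤ) := by push_cast; ring
    rw [e, Int.natAbs_natCast]
  unfold gq
  rw [dif_pos hex]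
  exact hex.choose_spec

open scoped Classical in
/-- Turan-Kubilius -/
theorem tk_primes : ∃ C : ℝ, 0 < C ∧ ∀ (S : Finset ℕ) (Q Y : ℝ),
    (∀ p ∈ S, (p.Prime ∧ p % 4 = 1) ∧ (p : ℝ) ≤ Q) → 1 ≤ ∑ p ∈ S, 1 / (p : ℝ) → Q ^ 4 ≤ Y →
    ∑ z ∈ win 0 1 Y, (((S.filter (fun p => gq p ∣ z)).card : ℝ) - ∑ p ∈ S, 1 / (p : ℝ)) ^ 2 /
      (nm z : ℝ) ≤ C * ∑ p ∈ S, 1 / (p : ℝ) ∧ ∑ z ∈ win 0 1 Y, 1 / (nm z : ℝ) ≤ C := by
  obtain ⟨C₀, hC₀, -, hlat'⟩ := Pool.Agent.W45.GA.lat hD01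
  have hD := hD01
  have hlat : ∀ A B : ℝ, 1 ≤ A → A ≤ B →
      |∑ z ∈ ann 0 1 A B, 1 / (nm z : ℝ) - kap 0 1 * Real.log (B / A)| ≤ C₀ / Real.sqrt A := by
    intro A B hA hAB
    have h := hlat' A B 1 0 hA hAB le_rfl
    have h1 : (ann 0 1 A B).filter (lat 1 0) = ann 0 1 A B := by
      apply filter_true_of_mem
      intro z _
      unfold lat
      simp
    rw [h1] at h
    simpa using h
  set kk := kap 0 1 with hkk
  set C₁ := (kk + 2 * C₀) * Real.exp 1 with hC₁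
  have hpi : 0 < kk := kap_pos hD
  have hC₁0 : 0 < C₁ := by positivity
  refine ⟨4 * kk + 5 * C₁, by positivity, fun S Q Y hS hW hQY => ?_⟩
  set W := ∑ p ∈ S, 1 / (p : ℝ) with hWdef
  have hne : S.Nonempty := by
    rw [nonempty_iff_ne_empty]
    rintro rfl
    simp at hWdef
    linarith
  obtain ⟨p₀, hp₀⟩ := hne
  have h5 : ∀ p ∈ S, (5 : ℝ) ≤ p := by
    intro p hp
    obtain ⟨⟨h1, h2⟩, -⟩ := hS p hp
    have h3 := h1.two_le
    have h4 : 5 ≤ p := by omega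
    exact_mod_cast h4
  have hQ : 5 ≤ Q := (h5 p₀ hp₀).trans (hS p₀ hp₀).2
  have hY : 0 < Y := lt_of_lt_of_le (by positivity) hQY
  have hQQ : Q ≤ Q ^ 2 := by nlinarith
  set E := C₁ / Real.sqrt Y with hE
  have hE0 : 0 < E := by
    have := Real.sqrt_pos.2 hY
    positivity
  have hcardQ : (S.card : ℝ) ≤ Q := by
    have h1 : S ⊆ Icc 1 ⌊Q⌋₊ := by
      intro p hp
      rw [mem_Icc, Nat.le_floor_iff (by linarith)]
      have h2 : (1 : ℝ) ≤ p := by linarith [h5 p hp]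
      exact ⟨by exact_mod_cast h2, (hS p hp).2⟩
    have h2 := card_le_card h1
    rw [Nat.card_Icc] at h2
    have h3 : (S.card : ℝ) ≤ (⌊Q⌋₊ : ℝ) := by
      have : S.card ≤ ⌊Q⌋₊ := by omega
      exact_mod_cast this
    exact h3.trans (Nat.floor_le (by linarith))
  have hWcard : W ≤ S.card := by
    rw [hWdef]
    refine (sum_le_card_nsmul S _ 1 fun p hp => ?_).trans (by simp)
    have h1 : (1 : ℝ) ≤ p := by linarith [h5 p hp]
    rw [div_le_one (by linarith)]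
    exact h1
  have he8 : Real.exp 2 ≤ 8 := by
    have h1 : Real.exp 2 = Real.exp 1 * Real.exp 1 := by rw [← Real.exp_add]; norm_num
    have h2 := Real.exp_one_lt_d9
    have h3 := Real.exp_pos 1
    rw [h1]
    nlinarith
  have he : (0 : ℝ) < Real.exp 2 := Real.exp_pos 2
  have hwin : ∀ D : ℝ, 0 < D → D ≤ Q ^ 2 → 2 ≤ Y / Real.exp 2 / D := by
    intro D hD hDQ
    rw [le_div_iff₀ hD, le_div_iff₀ he]
    have h1 : 2 * D * Real.exp 2 ≤ 2 * Q ^ 2 * 8 := by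
      have h2 : D * Real.exp 2 ≤ Q ^ 2 * 8 := mul_le_mul hDQ he8 he.le (by positivity)
      linarith
    have h2 : 2 * Q ^ 2 * 8 ≤ Q ^ 4 := by
      have h3 : 25 ≤ Q ^ 2 := by nlinarith
      have h4 : Q ^ 4 = Q ^ 2 * Q ^ 2 := by ring
      rw [h4]
      nlinarith
    linarith
  have hnm : ∀ p ∈ S, nm (gq p) = p := fun p hp => nm_gq (hS p hp).1.1 (hS p hp).1.2
  have hne0 : ∀ p ∈ S, gq p ≠ 0 := by
    intro p hp
    rw [← one_le_nm hD, hnm p hp]
    have h1 : (1 : ℝ) ≤ p := by linarith [h5 p hp]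
    exact_mod_cast h1
  have hnoz : ∀ x y : Gi, x ≠ 0 → y ≠ 0 → x * y ≠ 0 := by
    intro x y hx hy
    rw [← one_le_nm hD] at hx hy ⊢
    rw [nm_mul]
    exact Nat.mul_pos hx hy
  -- the sums over the multiples
  set T : Gi → ℝ := fun d => ∑ z ∈ (win 0 1 Y).filter (fun z => d ∣ z), 1 / (nm z : ℝ) with hT
  have hTd : ∀ d : Gi, d ≠ 0 → (nm d : ℝ) ≤ Q ^ 2 →
      |T d - 4 * kk / (nm d : ℝ)| ≤ E := fun d hd hdQ =>
    tk_mult hD hC₀ hlat hY hd (hwin _ (nm_posR hD hd) hdQ)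
  have hcount : ∀ z : Gi, ((S.filter (fun p => gq p ∣ z)).card : ℝ) =
      ∑ p ∈ S, if gq p ∣ z then (1 : ℝ) else 0 := by
    intro z
    rw [card_filter]
    push_cast
    rfl
  have e1 : ∑ z ∈ win 0 1 Y, ((S.filter (fun p => gq p ∣ z)).card : ℝ) / (nm z : ℝ) =
      ∑ p ∈ S, T (gq p) := by
    simp_rw [hcount, sum_div, hT, sum_filter]
    rw [sum_comm]
    refine sum_congr rfl fun p _ => sum_congr rfl fun z _ => ?_
    split_ifs <;> simp
  have e2 : ∑ z ∈ win 0 1 Y, ((S.filter (fun p => gq p ∣ z)).card : ℝ) ^ 2 / (nm z : ℝ) =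
      ∑ p ∈ S, ∑ q ∈ S, ∑ z ∈ win 0 1 Y, (if gq p ∣ z ∧ gq q ∣ z then 1 / (nm z : ℝ) else 0) := by
    have h1 : ∀ z ∈ win 0 1 Y, ((S.filter (fun p => gq p ∣ z)).card : ℝ) ^ 2 / (nm z : ℝ) =
        ∑ p ∈ S, ∑ q ∈ S, (if gq p ∣ z ∧ gq q ∣ z then 1 / (nm z : ℝ) else 0) := by
      intro z _
      rw [hcount, pow_two, sum_mul_sum, sum_div]
      refine sum_congr rfl fun p _ => ?_
      rw [sum_div]
      refine sum_congr rfl fun q _ => ?_
      by_cases hp : gq p ∣ z <;> by_cases hq : gq q ∣ z <;> simp [hp, hq]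
    rw [sum_congr rfl h1, sum_comm]
    refine sum_congr rfl fun p _ => ?_
    rw [sum_comm]
  have e3 : ∀ p ∈ S, ∀ q ∈ S,
      ∑ z ∈ win 0 1 Y, (if gq p ∣ z ∧ gq q ∣ z then 1 / (nm z : ℝ) else 0) ≤
      4 * kk * (1 / (p : ℝ)) * (1 / (q : ℝ)) + E +
        (if p = q then 4 * kk * (1 / (p : ℝ)) else 0) := by
    intro p hp q hq
    have hp0 : (0 : ℝ) < p := by linarith [h5 p hp]
    have hq0 : (0 : ℝ) < q := by linarith [h5 q hq]
    have hpp : nm (gq p) = p := hnm p hp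
    have hqq : nm (gq q) = q := hnm q hq
    have hpQ := (hS p hp).2
    have hqQ := (hS q hq).2
    have n3 : 0 ≤ 4 * kk * (1 / (p : ℝ)) * (1 / (q : ℝ)) := by positivity
    by_cases hpq : p = q
    · have h1 : ∑ z ∈ win 0 1 Y, (if gq p ∣ z ∧ gq q ∣ z then 1 / (nm z : ℝ) else 0) = T (gq p) := by
        rw [← hpq]
        simp_rw [and_self, hT, sum_filter]
      rw [h1, if_pos hpq]
      have h2 := (abs_le.1 (hTd (gq p) (hne0 p hp) (by rw [hpp]; exact hpQ.trans hQQ))).2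
      rw [hpp] at h2
      have h4 : 4 * kk / (p : ℝ) = 4 * kk * (1 / (p : ℝ)) := by ring
      linarith
    · rw [if_neg hpq]
      have hco : Nat.Coprime (nm (gq p)) (nm (gq q)) := by
        rw [hpp, hqq]
        exact (Nat.coprime_primes (hS p hp).1.1 (hS q hq).1.1).2 hpq
      have h1 : ∑ z ∈ win 0 1 Y, (if gq p ∣ z ∧ gq q ∣ z then 1 / (nm z : ℝ) else 0) =
          T (gq p * gq q) := by
        simp only [hT, sum_filter]
        refine sum_congr rfl fun z _ => ?_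
        have : gq p * gq q ∣ z ↔ gq p ∣ z ∧ gq q ∣ z :=
          ⟨fun h => ⟨(dvd_mul_right _ _).trans h, (dvd_mul_left _ _).trans h⟩,
            fun h => mul_dvd_of_coprime hD hco h.1 h.2⟩
        simp only [this]
      rw [h1]
      have h2 := (abs_le.1 (hTd (gq p * gq q) (hnoz _ _ (hne0 p hp) (hne0 q hq)) (by
          rw [nm_mul, hpp, hqq]; push_cast; rw [pow_two]
          exact mul_le_mul hpQ hqQ hq0.le (by linarith)))).2
      rw [nm_mul, hpp, hqq] at h2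
      push_cast at h2
      have h4 : 4 * kk / ((p : ℝ) * q) = 4 * kk * (1 / (p : ℝ)) * (1 / (q : ℝ)) := by
        field_simp
      linarith
  have f2 : ∑ z ∈ win 0 1 Y, ((S.filter (fun p => gq p ∣ z)).card : ℝ) ^ 2 / (nm z : ℝ) ≤
      4 * kk * W ^ 2 + (S.card : ℝ) ^ 2 * E + 4 * kk * W := by
    rw [e2]
    have h1 : ∀ p ∈ S, ∑ q ∈ S,
        ∑ z ∈ win 0 1 Y, (if gq p ∣ z ∧ gq q ∣ z then 1 / (nm z : ℝ) else 0) ≤
        4 * kk * (1 / (p : ℝ)) * W + S.card * E + 4 * kk * (1 / (p : ℝ)) := by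
      intro p hp
      refine (sum_le_sum fun q hq => e3 p hp q hq).trans ?_
      simp only [sum_add_distrib]
      have h2 : ∑ q ∈ S, (if p = q then 4 * kk * (1 / (p : ℝ)) else 0) =
          4 * kk * (1 / (p : ℝ)) := by
        rw [sum_ite_eq, if_pos hp]
      have h3 : ∑ q ∈ S, 4 * kk * (1 / (p : ℝ)) * (1 / (q : ℝ)) =
          4 * kk * (1 / (p : ℝ)) * W := by
        rw [← mul_sum]
      have h4 : ∑ q ∈ S, E = S.card * E := by
        rw [sum_const, nsmul_eq_mul]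
      rw [h2, h3, h4]
    refine (sum_le_sum h1).trans (le_of_eq ?_)
    simp only [sum_add_distrib, ← mul_sum, ← sum_mul, sum_const, nsmul_eq_mul]
    rw [← hWdef]
    ring
  have f1 : 4 * kk * W - S.card * E ≤
      ∑ z ∈ win 0 1 Y, ((S.filter (fun p => gq p ∣ z)).card : ℝ) / (nm z : ℝ) := by
    rw [e1]
    have h1 : ∀ p ∈ S, 4 * kk * (1 / (p : ℝ)) - E ≤ T (gq p) := by
      intro p hp
      have hpp : nm (gq p) = p := hnm p hp
      have hpQ := (hS p hp).2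
      have hp5 := h5 p hp
      have h2 := (abs_le.1 (hTd (gq p) (hne0 p hp) (by rw [hpp]; exact hpQ.trans hQQ))).1
      rw [hpp] at h2
      have h4 : 4 * kk / (p : ℝ) = 4 * kk * (1 / (p : ℝ)) := by ring
      linarith
    refine le_trans (le_of_eq ?_) (sum_le_sum h1)
    simp only [sum_sub_distrib, ← mul_sum, sum_const, nsmul_eq_mul]
    rw [← hWdef]
  have f0 : ∑ z ∈ win 0 1 Y, 1 / (nm z : ℝ) ≤ 4 * kk + E := by
    have h1 := (abs_le.1 (hTd 1 (by rw [← one_le_nm hD]; simp)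
      (by rw [nm_one]; push_cast; linarith))).2
    have h2 : T 1 = ∑ z ∈ win 0 1 Y, 1 / (nm z : ℝ) := by
      simp only [hT, one_dvd, filter_true]
    rw [h2] at h1
    simp only [nm_one, Nat.cast_one, div_one] at h1
    linarith
  have hexp : ∀ W : ℝ, ∑ z ∈ win 0 1 Y, (((S.filter (fun p => gq p ∣ z)).card : ℝ) - W) ^ 2 /
        (nm z : ℝ) =
      ∑ z ∈ win 0 1 Y, ((S.filter (fun p => gq p ∣ z)).card : ℝ) ^ 2 / (nm z : ℝ) -
        2 * W * ∑ z ∈ win 0 1 Y, ((S.filter (fun p => gq p ∣ z)).card : ℝ) / (nm z : ℝ) +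
        W ^ 2 * ∑ z ∈ win 0 1 Y, 1 / (nm z : ℝ) := by
    intro W
    rw [mul_sum, mul_sum, ← sum_sub_distrib, ← sum_add_distrib]
    refine sum_congr rfl fun z _ => ?_
    ring
  rw [hexp]
  have hW0 : 0 < W := by linarith
  have g1 : 2 * W * (4 * kk * W - S.card * E) ≤
      2 * W * ∑ z ∈ win 0 1 Y, ((S.filter (fun p => gq p ∣ z)).card : ℝ) / (nm z : ℝ) :=
    mul_le_mul_of_nonneg_left f1 (by positivity)
  have g0 : W ^ 2 * ∑ z ∈ win 0 1 Y, 1 / (nm z : ℝ) ≤ W ^ 2 * (4 * kk + E) :=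
    mul_le_mul_of_nonneg_left f0 (by positivity)
  -- the error term
  have hc0 : (0 : ℝ) ≤ S.card := by positivity
  have hEQ : Q ^ 2 * E ≤ C₁ := by
    have h1 : Q ^ 2 ≤ Real.sqrt Y := by
      apply Real.le_sqrt_of_sq_le
      calc (Q ^ 2) ^ 2 = Q ^ 4 := by ring
        _ ≤ Y := hQY
    rw [hE, mul_div_assoc', div_le_iff₀ (Real.sqrt_pos.2 hY)]
    nlinarith
  have h5 : (S.card : ℝ) ^ 2 ≤ Q ^ 2 := pow_le_pow_left₀ hc0 hcardQ 2
  have h6 : W * S.card ≤ Q ^ 2 := by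
    calc W * S.card ≤ S.card * S.card := mul_le_mul_of_nonneg_right hWcard hc0
      _ = (S.card : ℝ) ^ 2 := by ring
      _ ≤ Q ^ 2 := h5
  have h7 : W ^ 2 ≤ Q ^ 2 := (pow_le_pow_left₀ hW0.le hWcard 2).trans h5
  have h8 : (S.card : ℝ) ^ 2 * E ≤ Q ^ 2 * E := mul_le_mul_of_nonneg_right h5 hE0.le
  have h9 : W * S.card * E ≤ Q ^ 2 * E := mul_le_mul_of_nonneg_right h6 hE0.le
  have h10 : W ^ 2 * E ≤ Q ^ 2 * E := mul_le_mul_of_nonneg_right h7 hE0.le
  have h11 : C₁ ≤ C₁ * W := le_mul_of_one_le_right hC₁0.le hW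
  have h12 : 2 * W * (4 * kk * W - S.card * E) =
      8 * kk * W ^ 2 - 2 * (W * S.card * E) := by ring
  have h13 : W ^ 2 * (4 * kk + E) = 4 * kk * W ^ 2 + W ^ 2 * E := by ring
  have h14 : (4 * kk + 5 * C₁) * W = 4 * kk * W + 5 * (C₁ * W) := by ring
  rw [h12] at g1
  rw [h13] at g0
  refine ⟨?_, ?_⟩
  · rw [h14]
    linarith
  · have h15 : E ≤ C₁ := by
      have h16 : 1 * E ≤ Q ^ 2 * E := mul_le_mul_of_nonneg_right (by nlinarith) hE0.le
      linarith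
    linarith

end Pool.Agent.N316.MS
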